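import Pool.Agent.U909.CK.Rate

/-!
# The Kashaev invariants and the volume, uniformly in the exponents
-/

set_option autoImplicit false

namespace Pool.Agent.U909.CK

open Finset Filter Topology
open GapVol (lob)
open Pool.Agent.U909.CI
open Pool.Agent.R807.IN (hV)
open scoped Real

/-- the comparison -/
theorem comp (n k : ℕ) (hn : 1 ≤ n) (hk : 1 ≤ k) {x y : List (Bool × ℕ)}
    (hx : ∀ p ∈ x, 1 ≤ p.2) (hy : ∀ p ∈ y, 1 ≤ p.2)
    (hs : 8 * (x.length + y.length) ≤ n) {ε : ℝ} (hε : 0 < ε) :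
    ∀ᶠ N : ℕ in atTop, 0 < tr n k x y N ∧
    |2 * π * (Real.log (tr n k x y N) / N) -
      hV (Pool.Agent.R807.IN.word 1 n k (fl x) (fl y))| ≤
        130 * k * ((x.length + y.length : ℕ) + 1) + ε := by
  have hpi := Real.pi_lt_d2
  obtain ⟨h0, h0'⟩ := v3_bounds
  obtain ⟨g1, g2⟩ := vol_two n k hn hk x y
  filter_upwards [rate_two n k hk hx hy hs hn hε] with N hN
  obtain ⟨v, hv⟩ : ∃ v, v = lob (π / 6) := ⟨_, rfl⟩
  obtain ⟨V, hV'⟩ : ∃ V, V = hV (Pool.Agent.R807.IN.word 1 n k (fl x) (fl y)) := ⟨_, rfl⟩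
  obtain ⟨Y, hY⟩ : ∃ Y, Y = 2 * π * (Real.log (tr n k x y N) / N) := ⟨_, rfl⟩
  obtain ⟨hr1, hr2, hr3⟩ := hN
  refine ⟨hr3, ?_⟩
  rw [← hY] at hr1 hr2 ⊢
  rw [← hV'] at g1 g2 ⊢
  rw [← hv] at h0 h0' g1 g2 hr1 hr2
  push_cast at g2 ⊢
  have hk0 : (1 : ℝ) ≤ k := by exact_mod_cast hk
  obtain ⟨a, ha⟩ : ∃ a : ℝ, a = (x.length : ℝ) := ⟨_, rfl⟩
  obtain ⟨b, hb⟩ : ∃ b : ℝ, b = (y.length : ℝ) := ⟨_, rfl⟩
  rw [← ha] at hr1 hr2 g2 ⊢
  rw [← hb] at hr1 hr2 g2 ⊢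
  have ha0 : 0 ≤ a := by rw [ha]; positivity
  have hb0 : 0 ≤ b := by rw [hb]; positivity
  have hKs : 0 ≤ (k : ℝ) * (a + b) := by positivity
  have q3 : v * ((k : ℝ) * (a + b)) ≤ 0.7875 * (k * (a + b)) :=
    mul_le_mul_of_nonneg_right (by linarith) hKs
  have q4 : v * (k : ℝ) ≤ 0.7875 * k := mul_le_mul_of_nonneg_right (by linarith) (by linarith)
  have q5 : 0 ≤ v * (k : ℝ) := by positivity
  have q6 : 0 ≤ v * ((k : ℝ) * (a + b)) := by positivity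
  have e1 : (k : ℝ) * (2 * n * (8 * v) + (8 * v + 58) * a + (8 * v + 58) * b) =
    16 * (n * k * v) + 8 * (v * (k * (a + b))) + 58 * (k * (a + b)) := by ring
  have e0 : (k : ℝ) * (2 * n * (8 * v) - (8 * v + 58) * a - (8 * v + 58) * b) =
    16 * (n * k * v) - 8 * (v * (k * (a + b))) - 58 * (k * (a + b)) := by ring
  have e2 : (8 * (n : ℝ) - 4) * (2 * v) * k = 16 * (n * k * v) - 8 * (v * k) := by ring
  have e3 : (8 * (n : ℝ) + 4 * (a + b) + 2) * (2 * v) * k + (58 * (a + b) + 116) * k =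
    16 * (n * k * v) + 8 * (v * (k * (a + b))) + 4 * (v * k) + 58 * (k * (a + b)) + 116 * k := by ring
  have e4 : 130 * (k : ℝ) * (a + b + 1) = 130 * (k * (a + b)) + 130 * k := by ring
  rw [e1] at hr1
  rw [e0] at hr2
  rw [e2] at g1
  rw [e3] at g2
  rw [e4, abs_le]
  constructor
  · linarith
  · linarith

/-- the ratio -/
theorem ratio (S : ℕ) {δ : ℝ} (hδ : 0 < δ) : ∃ n0 : ℕ, 1 ≤ n0 ∧ ∀ n k : ℕ, n0 ≤ n → 1 ≤ k →
    ∀ x y : List (Bool × ℕ), (∀ p ∈ x, 1 ≤ p.2) → (∀ p ∈ y, 1 ≤ p.2) →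
      x.length + y.length ≤ S →
      0 < hV (Pool.Agent.R807.IN.word 1 n k (fl x) (fl y)) ∧
      ∀ᶠ N : ℕ in atTop, 0 < tr n k x y N ∧
        |2 * π * (Real.log (tr n k x y N) / N) -
          hV (Pool.Agent.R807.IN.word 1 n k (fl x) (fl y))| ≤
        δ * hV (Pool.Agent.R807.IN.word 1 n k (fl x) (fl y)) := by
  obtain ⟨h0, _⟩ := v3_bounds
  obtain ⟨v, hv⟩ : ∃ v, v = lob (π / 6) := ⟨_, rfl⟩
  rw [← hv] at h0
  obtain ⟨m, hm⟩ := exists_nat_ge ((130 * (S + 1) + 1) / (δ * (8 * v)))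
  refine ⟨m + 1 + 8 * S, by omega, fun n k hn hk x y hx hy hxy => ?_⟩
  obtain ⟨g1, _⟩ := vol_two n k (by omega) hk x y
  rw [← hv] at g1
  have hn' : (m : ℝ) + 1 ≤ n := by exact_mod_cast (show m + 1 ≤ n by omega)
  have hk' : (1 : ℝ) ≤ k := by exact_mod_cast hk
  have hm0 : (0 : ℝ) ≤ m := Nat.cast_nonneg m
  have h8 : 8 * (m : ℝ) * v * k ≤ (8 * n - 4) * (2 * v) * k := by
    have : 8 * (m : ℝ) * v ≤ (8 * n - 4) * (2 * v) := by nlinarith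
    exact mul_le_mul_of_nonneg_right this (by linarith)
  have h9 : 130 * ((S : ℝ) + 1) + 1 ≤ m * (δ * (8 * v)) := (div_le_iff₀ (by positivity)).1 hm
  have h10 : (130 * ((S : ℝ) + 1) + 1) * k ≤ δ * (8 * (m : ℝ) * v * k) := by
    calc (130 * ((S : ℝ) + 1) + 1) * k ≤ m * (δ * (8 * v)) * k :=
          mul_le_mul_of_nonneg_right h9 (by linarith)
      _ = _ := by ring
  have hmpos : 0 < 8 * (m : ℝ) * v * k := by
    have : 0 < (130 * ((S : ℝ) + 1) + 1) * k := by positivity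
    by_contra hneg
    have h11 := mul_nonpos_of_nonneg_of_nonpos hδ.le (not_lt.1 hneg)
    linarith
  refine ⟨by linarith, ?_⟩
  filter_upwards [comp n k (by omega) hk hx hy (by omega) (ε := k) (by linarith)] with N hN
  refine ⟨hN.1, hN.2.trans ?_⟩
  have hs : ((x.length + y.length : ℕ) : ℝ) ≤ S := by exact_mod_cast hxy
  have h12 : 130 * (k : ℝ) * (((x.length + y.length : ℕ) : ℝ) + 1) + k ≤
      (130 * ((S : ℝ) + 1) + 1) * k := by nlinarith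
  refine h12.trans (h10.trans ?_)
  exact mul_le_mul_of_nonneg_left (h8.trans g1) hδ.le

end Pool.Agent.U909.CK
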