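import Pool.Agent.U909.CI.Vol2
import Pool.Agent.U909.CI.Vol3
import Pool.Agent.W719.BX.GeoN

/-!
# The volumes of the pieces `s_1^a s_2^{-a}` are bounded
-/

set_option autoImplicit false

namespace Pool.Agent.U909.CK

open Finset MeasureTheory
open GapVol (lob)
open Pool.Agent.U909.CI
open Pool.Agent.R807.IN (tet_le)
open scoped Real

/-- the bound for the volume of a layered triangulation with arbitrary periodic hinge layers -/
theorem fan_gen (m : ℕ) (H : ℤ → Prop) (hH : ∀ i, H (i + m) ↔ H i) (w : ℤ → ℝ)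
    (hper : ∀ i, w (i + m) = w i) (X Y : ℤ → ℝ)
    (hX1 : ∀ i, H i → X i = (w (i - 1) + w i - w (i + 1)) / 2)
    (hX2 : ∀ i, ¬ H i → X i = (w (i - 1) + w (i + 1)) / 2)
    (hY1 : ∀ i, H i → Y i = (-w (i - 1) + w i + w (i + 1)) / 2)
    (hY2 : ∀ i, ¬ H i → Y i = (2 * w i - w (i - 1) - w (i + 1)) / 2)
    (hang : ∀ i, 0 < X i ∧ 0 < Y i ∧ 0 < π - w i)
    (S : Finset ℕ) (hS : ∀ i ∈ range m, H i → i ∈ S) :
    ∑ i ∈ range m, 2 * (lob (X i) + lob (Y i) + lob (π - w i)) ≤
      (2 * (3 * lob (π / 3)) + 29) * S.card := by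
  classical
  have hsum : ∀ i, X i + Y i + (π - w i) = π := by
    intro i
    by_cases h : H i
    · rw [hX1 i h, hY1 i h]; ring
    · rw [hX2 i h, hY2 i h]; ring
  have hpos : ∀ i, 0 < w i := by
    intro i
    have h1 := hsum i
    obtain ⟨a1, a2, a3⟩ := hang i
    linarith
  have hlt : ∀ i, w i < π := by
    intro i
    have a3 := (hang i).2.2
    linarith
  obtain ⟨g, hg⟩ : ∃ g : ℤ → ℝ, ∀ i, g i = if H i ∧ H (i + 1) then 0 else
    GG (w i) (w (i + 1)) + 29 / 4 := ⟨_, fun i => rfl⟩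
  have hg0 : ∀ i, 0 ≤ g i := by
    intro i
    rw [hg]
    split_ifs
    · exact le_rfl
    · have := (abs_le.1 (GG_le (hpos i) (hlt i) (hpos (i + 1)) (hlt (i + 1)))).1
      linarith
  have hg1 : ∀ i, g i ≤ 29 / 2 := by
    intro i
    rw [hg]
    split_ifs
    · norm_num
    · have := (abs_le.1 (GG_le (hpos i) (hlt i) (hpos (i + 1)) (hlt (i + 1)))).2
      linarith
  have hlayer : ∀ i : ℤ, lob (X i) + lob (Y i) + lob (π - w i) ≤
      (g (i - 1) - g i) + (if H i then 3 * lob (π / 3) + 29 / 2 else 0) := by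
    intro i
    obtain ⟨a1, a2, a3⟩ := hang i
    by_cases h : H i
    · have h1 := tet_le a1.le a2.le a3.le (hsum i)
      rw [if_pos h]
      have := hg0 (i - 1)
      have := hg1 i
      linarith
    · rw [if_neg h]
      have e1 : g (i - 1) = GG (w (i - 1)) (w i) + 29 / 4 := by
        rw [hg, if_neg]
        · rw [sub_add_cancel]
        · rw [sub_add_cancel]
          exact fun h3 => h h3.2
      have e2 : g i = GG (w i) (w (i + 1)) + 29 / 4 := by
        rw [hg, if_neg (fun h3 => h h3.1)]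
      have hXe := hX2 i h
      have hYe := hY2 i h
      rw [hYe] at a2
      have h1 := fan (a := w (i - 1)) (b := w i) (c := w (i + 1)) (hpos _) (hlt _) (hpos _) a2
      rw [hXe, hYe, e1, e2]
      linarith
  have hgper : ∀ i, g (i + m) = g i := by
    intro i
    rw [hg, hg]
    have h1 : H (i + m) ↔ H i := hH i
    have h2 : H (i + m + 1) ↔ H (i + 1) := by
      rw [show i + (m : ℤ) + 1 = i + 1 + m by ring]
      exact hH (i + 1)
    have h3 : w (i + m + 1) = w (i + 1) := by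
      rw [show i + (m : ℤ) + 1 = i + 1 + m by ring, hper]
    rw [h3, hper]
    by_cases h : H i ∧ H (i + 1)
    · rw [if_pos h, if_pos (by rw [h1, h2]; exact h)]
    · rw [if_neg h, if_neg (by rw [h1, h2]; exact h)]
  have htel : ∑ i ∈ range m, (g ((i : ℤ) - 1) - g (i : ℤ)) = 0 := by
    have h1 := Finset.sum_range_sub' (fun i : ℕ => g ((i : ℤ) - 1)) m
    have h2 : ∑ i ∈ range m, (g ((i : ℤ) - 1) - g (i : ℤ)) =
        ∑ i ∈ range m, (g ((i : ℤ) - 1) - g (((i + 1 : ℕ) : ℤ) - 1)) := by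
      refine sum_congr rfl fun i _ => ?_
      congr 2
      push_cast
      ring
    rw [h2, h1]
    have h3 := hgper (-1)
    have e1 : (((0 : ℕ) : ℤ) - 1) = -1 := by norm_num
    have e2 : ((m : ℤ) - 1) = -1 + m := by ring
    rw [e1, e2, h3, sub_self]
  have h1 : ∑ i ∈ range m, (lob (X i) + lob (Y i) + lob (π - w i)) ≤
      ∑ i ∈ range m, ((g ((i : ℤ) - 1) - g (i : ℤ)) +
        (if H (i : ℤ) then 3 * lob (π / 3) + 29 / 2 else 0)) :=
    sum_le_sum fun i _ => hlayer i
  have h1' : ∑ i ∈ range m, ((g ((i : ℤ) - 1) - g (i : ℤ)) +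
        (if H (i : ℤ) then 3 * lob (π / 3) + 29 / 2 else 0)) =
      ∑ i ∈ range m, (g ((i : ℤ) - 1) - g (i : ℤ)) +
        ∑ i ∈ range m, (if H (i : ℤ) then 3 * lob (π / 3) + 29 / 2 else 0) := sum_add_distrib
  rw [h1', htel, ← sum_filter, sum_const, nsmul_eq_mul] at h1
  have hv : 0 ≤ 3 * lob (π / 3) := by
    rw [GapVol.lob_dup]
    have := Pool.Agent.R807.TQ.lmax 0
    rw [GapVol.lob_zero] at this
    linarith
  have h5 : ((range m).filter fun i : ℕ => H (i : ℤ)).card ≤ S.card := by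
    refine card_le_card fun i hi => ?_
    rw [mem_filter] at hi
    exact hS i hi.1 hi.2
  have h6 : ((((range m).filter fun i : ℕ => H (i : ℤ)).card : ℕ) : ℝ) ≤ S.card := by
    exact_mod_cast h5
  have h7 := mul_le_mul_of_nonneg_right h6 (by linarith : (0 : ℝ) ≤ 3 * lob (π / 3) + 29 / 2)
  rw [← mul_sum]
  linarith

open Pool.Agent.W719.BX in
/-- the volumes of the pieces are bounded -/
theorem bvol_le {a : ℕ} {w : ℤ → ℝ} (hw : bAngleN a 1 w) :
    bvolN a 1 w ≤ 8 * lob (π / 6) + 58 := by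
  classical
  obtain ⟨h1, h2⟩ := hw
  have e : (((2 * a : ℕ) : ℤ)) = 2 * a * ((1 : ℕ) : ℤ) := by push_cast; ring
  have hper : ∀ i : ℤ, w (i + (2 * a : ℕ)) = w i := by
    intro i
    rw [e]
    exact h1 i
  have hH : ∀ i : ℤ, ((a : ℤ) ∣ i + (2 * a : ℕ)) ↔ (a : ℤ) ∣ i := by
    intro i
    have : (a : ℤ) ∣ ((2 * a : ℕ) : ℤ) := ⟨2, by push_cast; ring⟩
    exact (Int.dvd_add_left this)
  have h := fan_gen (2 * a) (fun i => (a : ℤ) ∣ i) hH w hper (bX a w) (bY a w)
    (fun i hi => if_pos hi) (fun i hi => if_neg hi) (fun i hi => if_pos hi) (fun i hi => if_neg hi)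
    h2 ({0, a} : Finset ℕ) (by
      intro i hi hd
      rw [mem_range] at hi
      have hd' : a ∣ i := by exact_mod_cast hd
      obtain ⟨c, rfl⟩ := hd'
      have hc : c < 2 := by
        by_contra hc
        have : a * 2 ≤ a * c := Nat.mul_le_mul_left a (by omega)
        omega
      rw [mem_insert, mem_singleton]
      interval_cases c
      · left; simp
      · right; simp)
  have hcard : ((({0, a} : Finset ℕ).card : ℕ) : ℝ) ≤ 2 := by
    exact_mod_cast card_le_two
  have hv : 0 ≤ 3 * lob (π / 3) := by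
    rw [GapVol.lob_dup]
    have := Pool.Agent.R807.TQ.lmax 0
    rw [GapVol.lob_zero] at this
    linarith
  have h7 := mul_le_mul_of_nonneg_left hcard (by linarith : (0 : ℝ) ≤ 2 * (3 * lob (π / 3)) + 29)
  have e2 : bvolN a 1 w = ∑ i ∈ range (2 * a), 2 * (lob (bX a w i) + lob (bY a w i) +
      lob (π - w i)) := by
    unfold bvolN
    rw [mul_one]
    rfl
  rw [e2]
  refine (h.trans h7).trans (le_of_eq ?_)
  rw [GapVol.lob_dup]
  ring

/-- a lower bound for `Λ` -/
lemma lob_ge {y : ℝ} (h0 : 0 < y) (h1 : y < π) : y * (1 - Real.log (2 * y)) ≤ lob y := by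
  have e := GapVol.lob_sub 0 y
  rw [GapVol.lob_zero, sub_zero] at e
  have hint : IntervalIntegrable (fun t : ℝ => -(Real.log 2 + Real.log t)) volume 0 y :=
    (IntervalIntegrable.add intervalIntegrable_const intervalIntegral.intervalIntegrable_log').neg
  have h2 : ∫ t in (0 : ℝ)..y, -(Real.log 2 + Real.log t) ≤ ∫ t in (0 : ℝ)..y, GapVol.g t := by
    refine intervalIntegral.integral_mono_on_of_le_Ioo h0.le hint (GapVol.g_int 0 y) ?_
    intro t ht
    have h3 : Real.sin t ≤ t := Real.sin_le ht.1.le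
    have h4 : 0 < Real.sin t := Real.sin_pos_of_pos_of_lt_pi ht.1 (by linarith [ht.2])
    have h6 := Real.log_le_log (show 0 < 2 * Real.sin t by positivity)
      (show 2 * Real.sin t ≤ 2 * t by linarith)
    rw [Real.log_mul two_ne_zero ht.1.ne'] at h6
    unfold GapVol.g
    linarith
  rw [e]
  refine le_trans (le_of_eq ?_) h2
  rw [intervalIntegral.integral_neg, intervalIntegral.integral_add intervalIntegrable_const
    intervalIntegral.intervalIntegrable_log', intervalIntegral.integral_const, integral_log,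
    smul_eq_mul, Real.log_mul two_ne_zero h0.ne']
  ring

/-- `v_3 = 2 Λ(π/6) ≥ 0.99` -/
lemma v3_ge : (0.99 : ℝ) ≤ 2 * lob (π / 6) := by
  have hp := Real.pi_gt_d2
  have hp2 := Real.pi_lt_d2
  have h1 := lob_ge (y := π / 6) (by linarith) (by linarith)
  have h2 : Real.log (2 * (π / 6)) ≤ 2 * (π / 6) - 1 := Real.log_le_sub_one_of_pos (by linarith)
  have h3 : π / 6 * (2 - 2 * (π / 6)) ≤ π / 6 * (1 - Real.log (2 * (π / 6))) :=
    mul_le_mul_of_nonneg_left (by linarith) (by linarith)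
  nlinarith

end Pool.Agent.U909.CK
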