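import Pool.Agent.U909.CK.Fan
import Pool.Agent.U476.InsLim

/-!
# Growth rates for `(w w*)^k` with bounds which do not depend on the exponents
-/

set_option autoImplicit false

namespace Pool.Agent.U909.CK

open Finset Filter Topology
open GapVol (lob)
open Pool.Agent.U909.CI
open Pool.Agent.R807.HolderLim (GrowthLe)
open Pool.Agent.U476.Gr Pool.Agent.U476.Ins
open Pool.Agent.R807.Holder (tau)
open Pool.Agent.W715.VC (rep3 wpow)
open scoped Real

lemma growth_mono {L L' : ℝ} {a : ℕ} (h : GrowthLe L a) (hL : L ≤ L') : GrowthLe L' a := by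
  intro ε hε
  have hp := Real.pi_pos
  filter_upwards [h ε hε] with N h1
  refine h1.trans (Real.exp_le_exp.2 ?_)
  gcongr

/-- the syllables grow at most with the rate `4 v_3 + 58` -/
lemma growth_all {a : ℕ} (ha : 1 ≤ a) : GrowthLe (8 * lob (π / 6) + 58) a := by
  obtain ⟨h0, h1⟩ := v3_bounds
  have h4 := Pool.Agent.R807.TQ.oct_lt
  have hp := Real.pi_lt_d2
  rcases Nat.lt_or_ge a 4 with h | h
  · interval_cases a
    · exact growth_mono Pool.Agent.R807.HolderLim.growth_one (by linarith)
    · exact growth_mono Pool.Agent.R807.HolderLim.growth_two (by linarith)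
    · exact growth_mono Pool.Agent.R807.HolderLim.growth_three (by linarith)
  · obtain ⟨V, g1, g2, g3⟩ := Pool.Agent.R807.HolderLim.growth_four h
    refine growth_mono g3 ?_
    obtain ⟨w, hw, rfl⟩ := g1.1
    exact bvol_le hw

/-- braid word of a word in `s_1⁻¹` (`false`) and `s_2` (`true`) -/
def tb (u : List Bool) : List (ℕ × Bool) := u.map fun b => (if b then 1 else 0, b)

lemma tb_app (u w : List Bool) : tb (u ++ w) = tb u ++ tb w := by simp [tb]

lemma tb_wd (u : List Bool) : Wd (tb u) := by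
  intro l hl
  unfold tb at hl
  rw [List.mem_map] at hl
  obtain ⟨b, -, rfl⟩ := hl
  cases b <;> simp

lemma tb_dual (u : List Bool) :
    tb (Pool.Agent.R807.IN.dual u) = Pool.Agent.W715.VC.dual (tb u) := by
  unfold tb Pool.Agent.R807.IN.dual Pool.Agent.W715.VC.dual
  rw [List.map_reverse, List.map_map, List.map_map]
  congr 1
  refine List.map_congr_left fun b _ => ?_
  cases b <;> rfl

lemma tb_pows (u : List Bool) (k : ℕ) : tb (Pool.Agent.R807.IN.pows u k) = wpow (tb u) k := by
  induction k with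
  | zero => rfl
  | succ k ih =>
    have e : wpow (tb u) (k + 1) = tb u ++ wpow (tb u) k := by
      simp [wpow, List.replicate_succ]
    rw [e, ← ih]
    exact tb_app u _

lemma tb_pw (n : ℕ) : tb (Pool.Agent.R807.TQ.pw 1 n) =
    wpow (List.replicate 1 ((1, true) : ℕ × Bool) ++
      Pool.Agent.W715.VC.dual (List.replicate 1 (1, true))) n := by
  induction n with
  | zero => rfl
  | succ n ih =>
    have e : wpow (List.replicate 1 ((1, true) : ℕ × Bool) ++
        Pool.Agent.W715.VC.dual (List.replicate 1 (1, true))) (n + 1) =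
        List.replicate 1 ((1, true) : ℕ × Bool) ++
        Pool.Agent.W715.VC.dual (List.replicate 1 (1, true)) ++
        wpow (List.replicate 1 ((1, true) : ℕ × Bool) ++
        Pool.Agent.W715.VC.dual (List.replicate 1 (1, true))) n := by
      simp [wpow, List.replicate_succ]
    rw [e, ← ih]
    rfl

/-- the syllables as syllables of a braid word -/
def sy (s : List (Bool × ℕ)) : List (ℕ × Bool × ℕ) := s.map fun p => (if p.1 then 1 else 0, p.1, p.2)

lemma tb_fl (s : List (Bool × ℕ)) :
    tb (fl s) = ((sy s).map Pool.Agent.R807.HolderLim.syl).flatten := by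
  induction s with
  | nil => rfl
  | cons p s ih =>
    have e : fl (p :: s) = List.replicate p.2 p.1 ++ fl s := rfl
    have e2 : ((sy (p :: s)).map Pool.Agent.R807.HolderLim.syl).flatten =
        List.replicate p.2 ((if p.1 then 1 else 0, p.1) : ℕ × Bool) ++
          ((sy s).map Pool.Agent.R807.HolderLim.syl).flatten := rfl
    rw [e, tb_app, ih, e2]
    congr 1
    unfold tb
    rw [List.map_replicate]

lemma sy_ok {s : List (Bool × ℕ)} (hs : ∀ p ∈ s, 1 ≤ p.2) : ∀ x ∈ sy s, x.1 < 2 ∧ 1 ≤ x.2.2 := by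
  intro x hx
  unfold sy at hx
  rw [List.mem_map] at hx
  obtain ⟨p, hp, rfl⟩ := hx
  refine ⟨?_, hs p hp⟩
  rcases p with ⟨b, e⟩
  cases b <;> simp

lemma fl_ub {s : List (Bool × ℕ)} (hs : ∀ p ∈ s, 1 ≤ p.2) :
    UB (fun N => tau N (tb (fl s))) ((8 * lob (π / 6) + 58) * s.length) := by
  have h := UB_syl (V := fun _ => 8 * lob (π / 6) + 58) (fun a ha => growth_all ha) (sy s) (sy_ok hs)
  rw [← tb_fl] at h
  have e : ((sy s).map fun _ => 8 * lob (π / 6) + 58).sum = (8 * lob (π / 6) + 58) * s.length := by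
    rw [List.map_const', List.sum_replicate, nsmul_eq_mul, mul_comm]
    simp [sy]
  rw [e] at h
  exact h

/-- the trace which gives the Kashaev invariant of `(w w*)^k` with its axis -/
noncomputable def tr (n k : ℕ) (x y : List (Bool × ℕ)) (N : ℕ) : ℝ :=
  ‖(rep3 N (tb (Pool.Agent.R807.IN.word 1 n k (fl x) (fl y)))).trace‖

/-- the growth -/
theorem rate_two (n k : ℕ) (hk : 1 ≤ k) {x y : List (Bool × ℕ)}
    (hx : ∀ p ∈ x, 1 ≤ p.2) (hy : ∀ p ∈ y, 1 ≤ p.2)
    (hs : 8 * (x.length + y.length) ≤ n) (hn : 1 ≤ n) {ε : ℝ} (hε : 0 < ε) :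
    ∀ᶠ N : ℕ in atTop,
      2 * π * (Real.log (tr n k x y N) / N) ≤
        k * (2 * n * (8 * lob (π / 6)) + (8 * lob (π / 6) + 58) * x.length +
          (8 * lob (π / 6) + 58) * y.length) + ε ∧
      k * (2 * n * (8 * lob (π / 6)) - (8 * lob (π / 6) + 58) * x.length -
          (8 * lob (π / 6) + 58) * y.length) - ε ≤ 2 * π * (Real.log (tr n k x y N) / N) ∧
      0 < tr n k x y N := by
  have h0 := v3_bounds.1
  have hge := v3_ge
  obtain ⟨v, hv⟩ : ∃ v, v = lob (π / 6) := ⟨_, rfl⟩
  have hux := fl_ub hx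
  have huy := fl_ub hy
  have hR : Wd (List.replicate 1 ((1, true) : ℕ × Bool)) :=
    Pool.Agent.R807.HolderLim.hu_rep (l := (1, true)) (by norm_num) 1
  have hp : Wd (wpow (List.replicate 1 ((1, true) : ℕ × Bool) ++
      Pool.Agent.W715.VC.dual (List.replicate 1 (1, true))) n) :=
    (Wd.append hR (Wd.dual _)).pow n
  have hub : UB (fun N => tau N (List.replicate 1 ((1, true) : ℕ × Bool))) (8 * lob (π / 6)) := by
    intro ε hε
    filter_upwards [Pool.Agent.R807.HolderLim.growth_one ε hε] with N h1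
    rw [Pool.Agent.R807.HolderLim.tau_syl (l := (1, true)) (by norm_num) 1]
    exact h1
  have hlb : LB (fun N => ‖(rep3 N (List.replicate 1 ((1, true) : ℕ × Bool) ++
      Pool.Agent.W715.VC.dual (List.replicate 1 (1, true)))).trace‖) (8 * lob (π / 6)) := by
    refine (LB.of_tendsto (fun N => norm_nonneg _) (by linarith) base_one).mono ?_
    filter_upwards with N
    rw [norm_syl (l := (1, true)) (by norm_num)]
  have hUB := UB_pal hR hub (n := n) (by omega)
  have hLB := LB_pal hR hlb (n := n) (by omega)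
  have e : tb (Pool.Agent.R807.IN.word 1 n k (fl x) (fl y)) = wpow ((tb (fl x) ++
      (wpow (List.replicate 1 ((1, true) : ℕ × Bool) ++
      Pool.Agent.W715.VC.dual (List.replicate 1 (1, true))) n ++ tb (fl y))) ++
      Pool.Agent.W715.VC.dual (tb (fl x) ++
      (wpow (List.replicate 1 ((1, true) : ℕ × Bool) ++
      Pool.Agent.W715.VC.dual (List.replicate 1 (1, true))) n ++ tb (fl y)))) k := by
    unfold Pool.Agent.R807.IN.word Pool.Agent.R807.IN.wx
    rw [tb_pows, tb_app, tb_dual, tb_app, tb_app, tb_pw]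
  have hs' : 8 * ((x.length : ℝ) + y.length) ≤ n := by exact_mod_cast hs
  have hn' : (1 : ℝ) ≤ n := by exact_mod_cast hn
  have hx0 : (0 : ℝ) ≤ x.length := Nat.cast_nonneg _
  have hy0 : (0 : ℝ) ≤ y.length := Nat.cast_nonneg _
  rw [← hv] at h0 hge hux huy hUB hLB ⊢
  have hk0 : (0 : ℝ) < k := by exact_mod_cast hk
  have hlt : (8 * v + 58) * (x.length : ℝ) + (8 * v + 58) * y.length < 2 * n * (8 * v) := by
    have h1 : (8 * v + 58) * ((x.length : ℝ) + y.length) ≤ 126 * v * (x.length + y.length) :=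
      mul_le_mul_of_nonneg_right (by linarith) (by positivity)
    have h2 : v * (8 * ((x.length : ℝ) + y.length)) ≤ v * n := mul_le_mul_of_nonneg_left hs' h0.le
    have h3 : 0 < v * n := by positivity
    nlinarith
  have hU0 : 0 ≤ 2 * (n : ℝ) * (8 * v) := by positivity
  have hgx0 : 0 ≤ (8 * v + 58) * (x.length : ℝ) := by positivity
  have hgy0 : 0 ≤ (8 * v + 58) * (y.length : ℝ) := by positivity
  have H1 := Pool.Agent.U476.Ins.upper hp (tb_wd (fl x)) (tb_wd (fl y)) hUB hux huy (k := k) (by omega)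
  have H2 := Pool.Agent.U476.Ins.lower hp (tb_wd (fl x)) (tb_wd (fl y)) hLB hux huy (k := k) (by omega) hlt
  rw [← e] at H1 H2
  have H2' := H2 (k * (2 * n * (8 * v) - (8 * v + 58) * x.length - (8 * v + 58) * y.length))
    (mul_pos hk0 (by linarith))
  filter_upwards [H1.log (fun N => norm_nonneg _) (by positivity) hε, H2.log hε, H2'] with N a1 a2 a3
  refine ⟨?_, ?_, ?_⟩
  · exact a1
  · exact a2
  · exact (Real.exp_pos _).trans_le a3

end Pool.Agent.U909.CK
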